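import Mathlib

/-!
# MP_0168d2_co: few palindromes under a symmetric order condition without connection

A language that is not closed under reversal can satisfy a symmetric order condition without
connection and have too few palindromes: on five letters we give such a language with exactly the
palindromes `151`, `333`, `515` of length three (letters `1, …, 5` are `0, …, 4` below), so
`PC(3) ≤ 3 < 5`. The words of length two form the staircase
`15, 25, 35, 34, 33, 32, 42, 41, 51`; the letters `2` and `4` have disjoint sets of left and right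
extensions. The longer words are obtained by choosing for every word an L-shaped staircase.
-/

set_option autoImplicit false

namespace Pool.Agent.Results.MP_0168d2_co.FewPalindromes

/-- A family `(L n)` of sets of words of length `n` with `L 0 = {ε}` that is factorial and
extendable. -/
structure IsLanguage {A : Type} (L : ℕ → Set (List A)) : Prop where
  zero : L 0 = {[]}
  len : ∀ n, ∀ w ∈ L n, w.length = n
  factorial : ∀ n, ∀ v ∈ L (n + 1), ∃ a u u' b, v = a :: u ∧ v = u' ++ [b] ∧ u ∈ L n ∧ u' ∈ L n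
  extendable : ∀ n, ∀ v ∈ L n, ∃ a b, a :: v ∈ L (n + 1) ∧ v ++ [b] ∈ L (n + 1)

/-- The word `w` belongs to the language. -/
def Mem {A : Type} (L : ℕ → Set (List A)) (w : List A) : Prop := w ∈ L w.length

/-- `w` is bispecial. -/
def Bispecial {A : Type} (L : ℕ → Set (List A)) (w : List A) : Prop :=
  Mem L w ∧ (∃ a a', a ≠ a' ∧ Mem L (a :: w) ∧ Mem L (a' :: w)) ∧
    ∃ b b', b ≠ b' ∧ Mem L (w ++ [b]) ∧ Mem L (w ++ [b'])

/-- The order condition for the pair of orders `(ltA, ltD)`. -/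
def OrderCondition {A : Type} (ltA ltD : A → A → Prop) (L : ℕ → Set (List A)) : Prop :=
  ∀ v, Bispecial L v → ∀ x x' y y', Mem L (x :: (v ++ [y])) → Mem L (x' :: (v ++ [y'])) →
    x ≠ x' → y ≠ y' → (ltA x x' ↔ ltD y y')

/-- `a` and `a'` are consecutive letters, `a` before `a'`. -/
def Consecutive {A : Type} (lt : A → A → Prop) (a a' : A) : Prop :=
  lt a a' ∧ ¬ ∃ c, lt a c ∧ lt c a'

/-- The bispecial word `w` has a connection. -/
def Connection {A : Type} (ltA ltD : A → A → Prop) (L : ℕ → Set (List A)) (w : List A) : Prop :=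
  ∃ a a' b b', Consecutive ltA a a' ∧ Consecutive ltD b b' ∧ Mem L (a :: (w ++ [b])) ∧
    Mem L (a' :: (w ++ [b'])) ∧ ¬ Mem L (a :: (w ++ [b'])) ∧ ¬ Mem L (a' :: (w ++ [b]))

/-- The palindromic complexity. -/
noncomputable def PC {A : Type} (L : ℕ → Set (List A)) (n : ℕ) : ℕ :=
  Set.ncard {w | w ∈ L n ∧ w.reverse = w}

/-- The words of length two. -/
def S : Finset (Fin 5 × Fin 5) :=
  {(0, 4), (1, 4), (2, 4), (2, 3), (2, 2), (2, 1), (3, 1), (3, 0), (4, 0)}

/-- The words `x m y` with `x m` and `m y` in `Λ` such that `x` is the smallest left extension of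
`m` or `y` is the smallest right extension of `m`. -/
def next (Λ : Set (List (Fin 5))) : Set (List (Fin 5)) :=
  {u | ∃ x m y, u = x :: (m ++ [y]) ∧ x :: m ∈ Λ ∧ m ++ [y] ∈ Λ ∧
    ((∀ x', x' :: m ∈ Λ → x ≤ x') ∨ ∀ y', m ++ [y'] ∈ Λ → y ≤ y')}

/-- The language. -/
def L : ℕ → Set (List (Fin 5))
  | 0 => {[]}
  | 1 => {w | ∃ a, w = [a]}
  | 2 => {w | ∃ x y, (x, y) ∈ S ∧ w = [x, y]}
  | n + 3 => next (L (n + 2))

theorem L_len : ∀ n, ∀ w ∈ L n, w.length = n
  | 0, w, h => by
    have : w = [] := h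
    simp [this]
  | 1, w, h => by
    obtain ⟨a, rfl⟩ := h
    rfl
  | 2, w, h => by
    obtain ⟨x, y, -, rfl⟩ := h
    rfl
  | n + 3, w, h => by
    obtain ⟨x, m, y, rfl, h1, h2, h3⟩ := h
    have := L_len (n + 2) _ h1
    simp at this ⊢
    omega

theorem mem_two (x y : Fin 5) : [x, y] ∈ L 2 ↔ (x, y) ∈ S := by
  constructor
  · rintro ⟨a, b, h, he⟩
    simp only [List.cons.injEq, and_true] at he
    obtain ⟨rfl, rfl⟩ := he
    exact h
  · intro h
    exact ⟨x, y, h, rfl⟩

theorem mem_next {n : ℕ} {x y : Fin 5} {m : List (Fin 5)} (hm : x :: (m ++ [y]) ∈ L (n + 3)) :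
    x :: m ∈ L (n + 2) ∧ m ++ [y] ∈ L (n + 2) ∧
    ((∀ x', x' :: m ∈ L (n + 2) → x ≤ x') ∨ ∀ y', m ++ [y'] ∈ L (n + 2) → y ≤ y') := by
  obtain ⟨x', m', y', he, h⟩ := hm
  simp only [List.cons.injEq] at he
  obtain ⟨rfl, he⟩ := he
  obtain ⟨rfl, he2⟩ := List.append_inj' he rfl
  simp only [List.cons.injEq, and_true] at he2
  subst he2
  exact h

theorem L_ext : ∀ n, ∀ v ∈ L n, (∃ a, a :: v ∈ L (n + 1)) ∧ ∃ b, v ++ [b] ∈ L (n + 1)
  | 0, v, h => by
    have : v = [] := h
    subst this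
    exact ⟨⟨0, 0, rfl⟩, ⟨0, 0, rfl⟩⟩
  | 1, v, h => by
    obtain ⟨a, rfl⟩ := h
    have h1 : ∀ a : Fin 5, ∃ b, (b, a) ∈ S := by decide
    have h2 : ∀ a : Fin 5, ∃ b, (a, b) ∈ S := by decide
    obtain ⟨b, hb⟩ := h1 a
    obtain ⟨c, hc⟩ := h2 a
    exact ⟨⟨b, (mem_two b a).2 hb⟩, ⟨c, (mem_two a c).2 hc⟩⟩
  | n + 2, v, h => by
    classical
    -- write `v = x m = m' y`
    have hlen := L_len _ _ h
    obtain ⟨x, m, m', y, hv1, hv2, hm, hm'⟩ : ∃ x m m' y, v = x :: m ∧ v = m' ++ [y] ∧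
        m ∈ L (n + 1) ∧ m' ∈ L (n + 1) := by
      cases n with
      | zero =>
        obtain ⟨a, b, _, rfl⟩ := h
        exact ⟨a, [b], [a], b, rfl, rfl, ⟨b, rfl⟩, ⟨a, rfl⟩⟩
      | succ n =>
        obtain ⟨a, w, b, rfl, h1, h2, _⟩ := h
        exact ⟨a, w ++ [b], a :: w, b, rfl, rfl, h2, h1⟩
    obtain ⟨_, ⟨b, hb⟩⟩ := L_ext (n + 1) m hm
    obtain ⟨⟨a, ha⟩, _⟩ := L_ext (n + 1) m' hm'
    constructor
    · -- the smallest left extension of `m'`
      have hne : (Finset.univ.filter fun a => a :: m' ∈ L (n + 2)).Nonempty := ⟨a, by simpa using ha⟩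
      obtain ⟨a0, ha0, hmin⟩ := Finset.exists_min_image _ id hne
      refine ⟨a0, a0, m', y, by rw [hv2], by simpa using ha0, by rw [← hv2]; exact h, Or.inl ?_⟩
      intro x' hx'
      exact hmin x' (by simpa using hx')
    · have hne : (Finset.univ.filter fun b => m ++ [b] ∈ L (n + 2)).Nonempty := ⟨b, by simpa using hb⟩
      obtain ⟨b0, hb0, hmin⟩ := Finset.exists_min_image _ id hne
      refine ⟨b0, x, m, b0, by rw [hv1]; rfl, by rw [← hv1]; exact h, by simpa using hb0,
        Or.inr ?_⟩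
      intro y' hy'
      exact hmin y' (by simpa using hy')

theorem L_lang : IsLanguage L := by
  refine ⟨rfl, L_len, ?_, fun n v hv => ?_⟩
  · intro n v hv
    match n, v, hv with
    | 0, v, hv =>
      obtain ⟨a, rfl⟩ := hv
      exact ⟨a, [], [], a, rfl, rfl, rfl, rfl⟩
    | 1, v, hv =>
      obtain ⟨a, b, _, rfl⟩ := hv
      exact ⟨a, [b], [a], b, rfl, rfl, ⟨b, rfl⟩, ⟨a, rfl⟩⟩
    | n + 2, v, hv =>
      obtain ⟨a, w, b, rfl, h1, h2, _⟩ := hv
      exact ⟨a, w ++ [b], a :: w, b, rfl, rfl, h2, h1⟩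
  · obtain ⟨⟨a, ha⟩, ⟨b, hb⟩⟩ := L_ext n v hv
    exact ⟨a, b, ha, hb⟩

theorem Mem_len (x y : Fin 5) (v : List (Fin 5)) :
    Mem L (x :: (v ++ [y])) ↔ x :: (v ++ [y]) ∈ L (v.length + 2) := by
  unfold Mem
  simp

/-- The key property: two extensions of the same word. -/
theorem two_ext {x x' y y' : Fin 5} {v : List (Fin 5)} (h1 : Mem L (x :: (v ++ [y])))
    (h2 : Mem L (x' :: (v ++ [y']))) (hx : x < x') (hy : y ≠ y') :
    y' < y ∧ (Consecutive (· < ·) x x' → Consecutive (fun a b => b < a) y y' →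
      Mem L (x :: (v ++ [y'])) ∨ Mem L (x' :: (v ++ [y]))) := by
  rw [Mem_len] at h1 h2
  rw [Mem_len, Mem_len]
  cases v with
  | nil =>
    simp only [List.nil_append, List.length_nil, zero_add, mem_two] at *
    revert x x' y y'
    unfold Consecutive
    decide
  | cons c v =>
    simp only [List.length_cons] at *
    rw [show v.length + 1 + 2 = v.length + 3 by ring] at *
    obtain ⟨a1, a2, a3⟩ := mem_next h1
    obtain ⟨b1, b2, b3⟩ := mem_next h2
    have hmin : ∀ y'', (c :: v) ++ [y''] ∈ L (v.length + 2) → y' ≤ y'' := by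
      rcases b3 with b3 | b3
      · exact absurd (b3 x a1) (not_le.2 hx)
      · exact b3
    refine ⟨lt_of_le_of_ne (hmin y a2) hy.symm, fun _ _ => Or.inl ?_⟩
    exact ⟨x, c :: v, y', rfl, a1, b2, Or.inr hmin⟩

theorem mem_three (x a y : Fin 5) : [x, a, y] ∈ L 3 ↔ (x, a) ∈ S ∧ (a, y) ∈ S ∧
    ((∀ x', (x', a) ∈ S → x ≤ x') ∨ ∀ y', (a, y') ∈ S → y ≤ y') := by
  constructor
  · intro h
    have h' : x :: ([a] ++ [y]) ∈ L (0 + 3) := h
    obtain ⟨h1, h2, h3⟩ := mem_next h'
    refine ⟨(mem_two _ _).1 h1, (mem_two _ _).1 h2, ?_⟩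
    rcases h3 with h3 | h3
    · exact Or.inl fun x' hx' => h3 x' ((mem_two _ _).2 hx')
    · exact Or.inr fun y' hy' => h3 y' ((mem_two _ _).2 hy')
  · rintro ⟨h1, h2, h3⟩
    refine ⟨x, [a], y, rfl, (mem_two _ _).2 h1, (mem_two _ _).2 h2, ?_⟩
    rcases h3 with h3 | h3
    · exact Or.inl fun x' hx' => h3 x' ((mem_two _ _).1 hx')
    · exact Or.inr fun y' hy' => h3 y' ((mem_two _ _).1 hy')

theorem palin : {w | w ∈ L 3 ∧ w.reverse = w} ⊆ ({[0, 4, 0], [2, 2, 2], [4, 0, 4]} :
    Set (List (Fin 5))) := by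
  rintro w ⟨h1, h2⟩
  have hlen := L_len _ _ h1
  match w, hlen with
  | [x, a, y], _ =>
    simp only [List.reverse_cons, List.reverse_nil, List.nil_append, List.cons_append,
      List.cons.injEq, and_true, true_and] at h2
    obtain ⟨h2, _⟩ := h2
    subst h2
    rw [mem_three] at h1
    simp only [Set.mem_insert_iff, Set.mem_singleton_iff, List.cons.injEq, and_true]
    revert h1
    revert a y
    decide

/-- There is a language on five letters that satisfies the order condition for a symmetric pair of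
orders, has no connection for that pair, and has at most three palindromes of length three. -/
theorem result : ∃ (L : ℕ → Set (List (Fin 5))) (ltA ltD : Fin 5 → Fin 5 → Prop),
    IsLanguage L ∧ L 1 = {w | ∃ a, w = [a]} ∧ IsStrictTotalOrder (Fin 5) ltA ∧
    IsStrictTotalOrder (Fin 5) ltD ∧ (∀ a b, ltD a b ↔ ltA b a) ∧ OrderCondition ltA ltD L ∧
    (∀ w, Bispecial L w → ¬ Connection ltA ltD L w) ∧ PC L 3 ≤ 3 := by
  refine ⟨L, (· < ·), fun a b => b < a, L_lang, rfl, inferInstance, ?_, fun a b => Iff.rfl, ?_, ?_,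
    ?_⟩
  · exact { irrefl := fun a => lt_irrefl a, trans := fun a b c h1 h2 => lt_trans h2 h1,
            trichotomous := fun a b h1 h2 => le_antisymm (not_lt.1 h1) (not_lt.1 h2) }
  · intro v _ x x' y y' h1 h2 hx hy
    constructor
    · intro h
      exact (two_ext h1 h2 h hy).1
    · intro h
      rcases lt_or_gt_of_ne hx with h3 | h3
      · exact h3
      · exact absurd (two_ext h2 h1 h3 hy.symm).1 (not_lt.2 h.le)
  · rintro w _ ⟨a, a', b, b', h1, h2, h3, h4, h5, h6⟩
    rcases (two_ext h3 h4 h1.1 h2.1.ne').2 h1 h2 with h7 | h7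
    · exact h5 h7
    · exact h6 h7
  · refine (Set.ncard_le_ncard palin (by simp)).trans ?_
    refine (Set.ncard_insert_le _ _).trans ?_
    have := Set.ncard_insert_le [(2 : Fin 5), 2, 2] {[4, 0, 4]}
    rw [Set.ncard_singleton] at this
    omega

end Pool.Agent.Results.MP_0168d2_co.FewPalindromes
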